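import Pool.Agent.H91.EL.Targets

/-!
# MP_ee74d2_an, board elm_modules, row WIN
-/

set_option autoImplicit false

namespace Pool.Agent.H1.EL.WINf

open Pool.Agent.H83.G Pool.Agent.H91.EL
open scoped RealInnerProductSpace

theorem walk {ρ D r : ℝ} {a : Z 2} {η : E 2} {y : Z 2} {η' : E 2} {x : Z 2} (hρ : 1 ≤ ρ)
    (hD : 1 ≤ D) (h : GG ρ D r a η y η' x) :
    ∃ f : Z 2, x - a = (y.2.2 - a.2.2) • ll η + ((x.2.2 - y.2.2) • ll η' + f) ∧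
      ‖f.2.1‖ ≤ 2 * (D * ρ) ∧ ‖f‖ ≤ 8 * (D * ρ) := by
  obtain ⟨e, h1, _, h3, _, h5⟩ := dec hρ hD h.e1 h.l1
  obtain ⟨e', h1', _, h3', _, h5'⟩ := dec hρ hD h.e2 h.l2
  refine ⟨e + e', ?_, ?_, ?_⟩
  · have : x - a = (y - a) + (x - y) := by abel
    rw [this, h1, h1']
    abel
  · have h6 : (e + e').2.1 = e.2.1 + e'.2.1 := rfl
    rw [h6]
    exact (norm_add_le _ _).trans (by linarith)
  · exact (norm_add_le _ _).trans (by linarith)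

theorem rem {ρ D r : ℝ} {a : Z 2} {η : E 2} {y : Z 2} {η' : E 2} {x : Z 2} (hρ : 1 ≤ ρ)
    (hD : 1 ≤ D) (hDρ : D ≤ ρ) (h : GG ρ D r a η y η' x) :
    |qQ (x - a) - 2 * (y.2.2 - a.2.2) * qB (x - a) (ll η)| ≤ 2000 * D * ρ ^ 3 := by
  obtain ⟨f, hf, _, hfn⟩ := walk hρ hD h
  have e1 : (x - a) - (y.2.2 - a.2.2) • ll η = (x.2.2 - y.2.2) • ll η' + f := by
    rw [hf]
    abel
  have e2 := congrArg qQ e1
  rw [qQ_sub, qQ_add, qQ_smul, qQ_smul, qQ_ll, qQ_ll, qB_smul_right, qB_smul_left] at e2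
  have e3 : qQ (x - a) - 2 * (y.2.2 - a.2.2) * qB (x - a) (ll η) =
      2 * ((x.2.2 - y.2.2) * qB (ll η') f) + qQ f := by linarith
  rw [e3]
  have hDρ0 : 0 ≤ D * ρ := by positivity
  have b1 : |x.2.2 - y.2.2| ≤ 2 * ρ ^ 2 := by
    have h1 := (norm_w_le x).trans h.nx
    have h2 := (norm_w_le y).trans h.ny
    have h3 := abs_le.1 h1
    have h4 := abs_le.1 h2
    rw [abs_le]
    constructor <;> linarith [h3.1, h3.2, h4.1, h4.2]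
  have b2 : |qB (ll η') f| ≤ 360 * (D * ρ) := by
    refine (abs_qB_le _ _).trans ?_
    have h1 := mul_le_mul (norm_ll_le η' h.e2) hfn (norm_nonneg _) (by norm_num)
    linarith
  have b3 : |qQ f| ≤ 320 * (D * ρ) ^ 2 := by
    unfold qQ
    refine (abs_qB_le _ _).trans ?_
    have h1 := mul_le_mul hfn hfn (norm_nonneg _) (by positivity)
    linarith
  have b4 : |(x.2.2 - y.2.2) * qB (ll η') f| ≤ 720 * D * ρ ^ 3 := by
    rw [abs_mul]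
    have h1 := mul_le_mul b1 b2 (abs_nonneg _) (by positivity)
    linarith
  have b5 : 320 * (D * ρ) ^ 2 ≤ 320 * D * ρ ^ 3 := by
    have h1 : D * (D * ρ ^ 2) ≤ ρ * (D * ρ ^ 2) := mul_le_mul_of_nonneg_right hDρ (by positivity)
    linarith
  have c4 := abs_le.1 b4
  have c3 := abs_le.1 b3
  have hpos : 0 ≤ D * ρ ^ 3 := by positivity
  rw [abs_le]
  constructor <;> linarith [c4.1, c4.2, c3.1, c3.2]

theorem pf_WIN (hNDG : T_NDG) : T_WIN := by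
  obtain ⟨C0, hC0, hN⟩ := hNDG
  refine ⟨C0 + 12002, by linarith, ?_⟩
  intro ρ D r a η x y₁ η₁ y₂ η₂ hρ hD hr hr1 hC h1 h2
  have hr4 : r ^ 4 ≤ 1 := pow_le_one₀ hr.le hr1
  have hC' : C0 * D ≤ r ^ 4 * ρ := by nlinarith
  have hDρ : D ≤ ρ := by nlinarith
  obtain ⟨hlow, -⟩ := hN ρ D r a η y₁ η₁ x hρ hD hr hr1 hC' h1
  have r1 := rem hρ hD hDρ h1
  have r2 := rem hρ hD hDρ h2
  have hr3 : 0 < r ^ 3 := by positivity
  have hρ0 : 0 < ρ := by linarith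
  have hw : |y₁.2.2 - y₂.2.2| ≤ 2000 * D * ρ / r ^ 3 := by
    have h3 : |2 * (y₁.2.2 - y₂.2.2) * qB (x - a) (ll η)| ≤ 4000 * D * ρ ^ 3 := by
      have c1 := abs_le.1 r1
      have c2 := abs_le.1 r2
      rw [abs_le]
      constructor <;> linarith [c1.1, c1.2, c2.1, c2.2]
    rw [abs_mul, abs_mul, abs_two] at h3
    have h4 : 2 * |y₁.2.2 - y₂.2.2| * (r ^ 3 * ρ ^ 2) ≤ 4000 * D * ρ ^ 3 :=
      (mul_le_mul_of_nonneg_left hlow (by positivity)).trans h3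
    rw [le_div_iff₀ hr3]
    have h5 : (|y₁.2.2 - y₂.2.2| * r ^ 3) * (2 * ρ ^ 2) ≤ (2000 * D * ρ) * (2 * ρ ^ 2) := by
      calc (|y₁.2.2 - y₂.2.2| * r ^ 3) * (2 * ρ ^ 2)
          = 2 * |y₁.2.2 - y₂.2.2| * (r ^ 3 * ρ ^ 2) := by ring
        _ ≤ 4000 * D * ρ ^ 3 := h4
        _ = (2000 * D * ρ) * (2 * ρ ^ 2) := by ring
    exact le_of_mul_le_mul_right h5 (by positivity)
  refine ⟨hw.trans ?_, ?_⟩
  · apply div_le_div_of_nonneg_right _ hr3.le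
    have : 0 ≤ D * ρ := by positivity
    nlinarith
  · obtain ⟨f₁, hf₁, hy₁, -⟩ := walk hρ hD h1
    obtain ⟨f₂, hf₂, hy₂, -⟩ := walk hρ hD h2
    have g1 := congrArg (fun z : Z 2 => z.2.1) hf₁
    have g2 := congrArg (fun z : Z 2 => z.2.1) hf₂
    simp only [ll, Prod.snd_sub, Prod.fst_sub, Prod.snd_add, Prod.fst_add, Prod.smul_snd,
      Prod.smul_fst] at g1 g2
    have g3 : (x.2.2 - y₁.2.2) • (η₁ - η₂) =
        -(y₁.2.2 - y₂.2.2) • η + (1 / 2 : ℝ) • (f₁.2.1 - f₂.2.1) +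
          (y₁.2.2 - y₂.2.2) • η₂ := by
      have g4 := g1.symm.trans g2
      have g5 : (2 : ℝ) • ((x.2.2 - y₁.2.2) • (η₁ - η₂)) =
          (2 : ℝ) • (-(y₁.2.2 - y₂.2.2) • η + (1 / 2 : ℝ) • (f₁.2.1 - f₂.2.1) +
          (y₁.2.2 - y₂.2.2) • η₂) := by
        have g6 := sub_eq_zero.2 g4
        rw [← sub_eq_zero, ← neg_eq_zero, ← g6]
        module
      exact (smul_right_injective (E 2) (two_ne_zero : (2 : ℝ) ≠ 0)) g5
    have g7 : ‖(x.2.2 - y₁.2.2) • (η₁ - η₂)‖ ≤ 6 * |y₁.2.2 - y₂.2.2| + 2 * (D * ρ) := by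
      rw [g3]
      refine (norm_add₃_le).trans ?_
      rw [norm_smul, norm_smul, norm_smul, Real.norm_eq_abs, Real.norm_eq_abs, Real.norm_eq_abs,
        abs_neg]
      have k1 : |y₁.2.2 - y₂.2.2| * ‖η‖ ≤ |y₁.2.2 - y₂.2.2| * 3 :=
        mul_le_mul_of_nonneg_left h1.e1 (abs_nonneg _)
      have k2 : |y₁.2.2 - y₂.2.2| * ‖η₂‖ ≤ |y₁.2.2 - y₂.2.2| * 3 :=
        mul_le_mul_of_nonneg_left h2.e2 (abs_nonneg _)
      have k3 : ‖f₁.2.1 - f₂.2.1‖ ≤ 4 * (D * ρ) := (norm_sub_le _ _).trans (by linarith)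
      have k4 : |(1 / 2 : ℝ)| = 1 / 2 := abs_of_pos (by norm_num)
      rw [k4]
      linarith
    rw [norm_smul, Real.norm_eq_abs] at g7
    have g8 : r * ρ ^ 2 * ‖η₁ - η₂‖ ≤ 6 * |y₁.2.2 - y₂.2.2| + 2 * (D * ρ) :=
      (mul_le_mul_of_nonneg_right h1.w2 (norm_nonneg _)).trans g7
    have hr31 : r ^ 3 ≤ 1 := pow_le_one₀ hr.le hr1
    have g9 : D * ρ ≤ D * ρ / r ^ 3 := by
      rw [le_div_iff₀ hr3]
      exact mul_le_of_le_one_right (by positivity) hr31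
    have g10 : 2000 * D * ρ / r ^ 3 = 2000 * (D * ρ / r ^ 3) := by ring
    have g11 : r * ρ ^ 2 * ‖η₁ - η₂‖ ≤ 12002 * (D * ρ / r ^ 3) := by
      rw [g10] at hw
      linarith
    rw [le_div_iff₀ (by positivity)]
    have g12 : (r ^ 3 * ρ) * ((r * ρ) * ‖η₁ - η₂‖) ≤ (r ^ 3 * ρ) * (12002 * D / r ^ 3) := by
      calc (r ^ 3 * ρ) * ((r * ρ) * ‖η₁ - η₂‖) = r ^ 3 * (r * ρ ^ 2 * ‖η₁ - η₂‖) := by ring
        _ ≤ r ^ 3 * (12002 * (D * ρ / r ^ 3)) := mul_le_mul_of_nonneg_left g11 hr3.le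
        _ = (r ^ 3 * ρ) * (12002 * D / r ^ 3) := by ring
    have g13 := le_of_mul_le_mul_left g12 (by positivity)
    rw [le_div_iff₀ hr3] at g13
    have : 0 ≤ C0 * D := by positivity
    calc ‖η₁ - η₂‖ * (r ^ 4 * ρ) = r * ρ * ‖η₁ - η₂‖ * r ^ 3 := by ring
      _ ≤ 12002 * D := g13
      _ ≤ (C0 + 12002) * D := by linarith

end Pool.Agent.H1.EL.WINf
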